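import Pool.Agent.Lib_helper23.DV.Main
import Pool.Agent.Lib_helper33.HOMF.VE

/-!
Averages over the divisors of a very divisible number, uniformly over all sets with the four bin
property (compare `Pool.Agent.Lib_helper23.DV.Div` and `Pool.Agent.Lib_helper23.DV.Main`).
-/

open Finset

set_option autoImplicit false

namespace Pool.Agent.HOMM

open Pool.Agent.Lib_helper23 Pool.Agent.Lib_helper23.DV

open PG Classical in
/-- Four point configurations whose differences all lie outside `D` have multiplicative density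
zero, uniformly over all sets `D` with the four bin property with `k` points in each bin. -/
theorem dens_pattern (k : ℕ) (x : Fin 4 → ℕ) (hx : StrictMono x) (η : ℝ) (hη : 0 < η)
    (hη1 : η ≤ 1) : ∃ K > 0, ∀ D : Set ℕ, HitsBins 4 k D → ∀ N > 0, K ∣ N →
    (#{d ∈ N.divisors | ∀ p q : Fin 4, p < q → d * ((4 * k).factorial * (x q - x p)) ∉ D} : ℝ) ≤
      η * #N.divisors := by
  obtain ⟨R, hR0, hR⟩ := trem x hx k (η / 2) (by positivity) (by linarith)
  obtain ⟨K, hK0, hK⟩ := bad_unif (η / 2) (by positivity) R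
  refine ⟨K, hK0, fun D hD N hN hKN => ?_⟩
  by_contra hcon
  push Not at hcon
  set B : Finset ℕ := {d ∈ N.divisors | ∀ p q : Fin 4, p < q →
    d * ((4 * k).factorial * (x q - x p)) ∉ D} with hB
  have hBN : B ⊆ N.divisors := Finset.filter_subset _ _
  have hτ : (0:ℝ) < #N.divisors := by
    exact_mod_cast Finset.card_pos.2 ⟨1, Nat.one_mem_divisors.2 hN.ne'⟩
  have hex : ∃ d ∈ N.divisors, η / 2 * R ≤ #{L ∈ Finset.Icc 1 R | d * L ∈ B} := by
    by_contra hno
    push Not at hno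
    have h1 : ∀ L ∈ Finset.Icc 1 R, η / 2 * (#N.divisors : ℝ) <
        #{d ∈ N.divisors | d * L ∈ B} := by
      intro L hL
      rw [Finset.mem_Icc] at hL
      have h2 : (#B : ℝ) ≤ #{d ∈ N.divisors | d * L ∈ B} + #(bad N L) := by
        exact_mod_cast shift_out N L B hBN
      have h3 := hK N hN hKN L hL.1 hL.2
      linarith
    have h4 : ∑ L ∈ Finset.Icc 1 R, (#{d ∈ N.divisors | d * L ∈ B} : ℝ) =
        ∑ d ∈ N.divisors, (#{L ∈ Finset.Icc 1 R | d * L ∈ B} : ℝ) := by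
      have h5 : ∑ L ∈ Finset.Icc 1 R, #{d ∈ N.divisors | d * L ∈ B} =
          ∑ d ∈ N.divisors, #{L ∈ Finset.Icc 1 R | d * L ∈ B} := by
        simp_rw [Finset.card_filter]
        exact Finset.sum_comm
      exact_mod_cast h5
    have h6 : (R : ℝ) * (η / 2 * #N.divisors) ≤
        ∑ L ∈ Finset.Icc 1 R, (#{d ∈ N.divisors | d * L ∈ B} : ℝ) := by
      calc (R : ℝ) * (η / 2 * #N.divisors) = ∑ _L ∈ Finset.Icc 1 R, η / 2 * (#N.divisors : ℝ) := by
            rw [Finset.sum_const, Nat.card_Icc, nsmul_eq_mul]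
            simp
        _ ≤ _ := Finset.sum_le_sum fun L hL => (h1 L hL).le
    have h7 : ∑ d ∈ N.divisors, (#{L ∈ Finset.Icc 1 R | d * L ∈ B} : ℝ) <
        ∑ _d ∈ N.divisors, η / 2 * (R : ℝ) :=
      Finset.sum_lt_sum_of_nonempty ⟨1, Nat.one_mem_divisors.2 hN.ne'⟩ hno
    rw [Finset.sum_const, nsmul_eq_mul] at h7
    rw [h4] at h6
    nlinarith
  obtain ⟨d, hdN, hd⟩ := hex
  have hd0 : 0 < d := Nat.pos_of_mem_divisors hdN
  obtain ⟨Y, hYk, hYne, hYd⟩ := hR {L ∈ Finset.Icc 1 R | d * L ∈ B} (Finset.filter_subset _ _) hd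
  set M : ℕ := (4 * k).factorial with hM
  have hM0 : 0 < M := Nat.factorial_pos _
  have hinj : Function.Injective fun y : ℕ => d * (M * y) := by
    intro a b hab
    exact Nat.eq_of_mul_eq_mul_left hM0 (Nat.eq_of_mul_eq_mul_left hd0 hab)
  have hdM : 0 < d * M := by positivity
  obtain ⟨i, j, hij, a, ha, b, hb, hab, hDab⟩ := hD (fun i => (Y i).image fun y => d * (M * y))
    (fun i => by rw [Finset.card_image_of_injective _ hinj, hYk])
    (fun i j hij => by
      rw [Finset.disjoint_left]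
      intro u hu hv
      obtain ⟨y, hy, rfl⟩ := Finset.mem_image.1 hu
      obtain ⟨z, hz, hyz⟩ := Finset.mem_image.1 hv
      exact hYne i j hij y hy z hz (hinj hyz).symm)
    (by
      refine adm_multiples k _ ?_ ?_
      · refine Finset.card_biUnion_le.trans ?_
        calc ∑ i : Fin 4, #((Y i).image fun y => d * (M * y)) ≤ ∑ i : Fin 4, k :=
              Finset.sum_le_sum fun i _ => (Finset.card_image_le).trans (hYk i).le
          _ = 4 * k := by simp
      · intro u hu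
        obtain ⟨i, -, hu⟩ := Finset.mem_biUnion.1 hu
        obtain ⟨y, hy, rfl⟩ := Finset.mem_image.1 hu
        exact ⟨d * y, by ring⟩)
  obtain ⟨y, hy, rfl⟩ := Finset.mem_image.1 ha
  obtain ⟨z, hz, rfl⟩ := Finset.mem_image.1 hb
  have hyz : y < z := by
    by_contra h
    push Not at h
    have : d * (M * z) ≤ d * (M * y) := by gcongr
    omega
  obtain ⟨p, q, hpq, L, hL, hzy⟩ := hYd i j hij y hy z hz hyz
  have h8 := (Finset.mem_filter.1 (Finset.mem_filter.1 hL).2).2 p q hpq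
  apply h8
  have h9 : d * (M * z) - d * (M * y) = d * L * (M * (x q - x p)) := by
    rw [hzy, ← Nat.mul_sub, ← Nat.mul_sub, Nat.add_sub_cancel_left]
    ring
  rwa [h9] at hDab

open PG Classical in
theorem main_abs (m B : ℕ) (w : ℕ → ℕ)
    (hcert : ∀ V : ℕ → Bool, Conf m V → ∑ t ∈ Finset.range m, (if V t then w t else 0) ≤ B)
    (k : ℕ) (ε : ℝ) (hε : 0 < ε) :
    ∃ K > 0, ∀ D : Set ℕ, HitsBins 4 k D → ∀ N > 0, K ∣ N →
      (((∑ t ∈ Finset.range m, w t : ℕ) : ℝ) - B - ε) * (#N.divisors : ℝ) ≤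
        ((∑ t ∈ Finset.range m, w t : ℕ) : ℝ) * #{d ∈ N.divisors | d ∈ D} := by
  obtain ⟨M, hM⟩ : ∃ M : ℕ, M = (4 * k).factorial := ⟨_, rfl⟩
  have hM0 : 0 < M := hM ▸ Nat.factorial_pos _
  obtain ⟨W, hW⟩ : ∃ W : ℕ, W = ∑ t ∈ Finset.range m, w t := ⟨_, rfl⟩
  rw [← hW]
  obtain ⟨I, hI⟩ : ∃ I : Finset (ℕ × ℕ × ℕ),
      I = (Finset.Icc 1 m) ×ˢ ((Finset.Icc 1 m) ×ˢ (Finset.Icc 1 m)) := ⟨_, rfl⟩
  obtain ⟨δ, hδ0, hδ⟩ : ∃ δ : ℝ, 0 < δ ∧ 2 * W * δ ≤ ε := by
    refine ⟨ε / (2 * W + 1), by positivity, ?_⟩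
    rw [mul_div_assoc', div_le_iff₀ (by positivity)]
    nlinarith
  obtain ⟨η, hη0, hη1, hηδ⟩ : ∃ η : ℝ, 0 < η ∧ η ≤ 1 ∧ #I * η ≤ δ := by
    refine ⟨min 1 δ / (#I + 1), by positivity, ?_, ?_⟩
    · rw [div_le_one (by positivity)]
      exact (min_le_left _ _).trans (by linarith [(Nat.cast_nonneg (#I) : (0:ℝ) ≤ #I)])
    · rw [mul_div_assoc', div_le_iff₀ (by positivity)]
      have h1 : min 1 δ ≤ δ := min_le_right _ _
      have h2 : (0:ℝ) < min 1 δ := by positivity
      have h3 : (0:ℝ) ≤ #I := Nat.cast_nonneg _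
      nlinarith
  have hpat : ∀ t ∈ I, ∃ K > 0, ∀ D : Set ℕ, HitsBins 4 k D → ∀ N > 0, K ∣ N →
      (#{d ∈ N.divisors | ∀ p q : Fin 4, p < q →
        d * (M * (pts t.1 t.2.1 t.2.2 q - pts t.1 t.2.1 t.2.2 p)) ∉ D} : ℝ) ≤
        η * #N.divisors := by
    intro t ht
    rw [hI, Finset.mem_product, Finset.mem_product, Finset.mem_Icc, Finset.mem_Icc,
      Finset.mem_Icc] at ht
    rw [hM]
    exact dens_pattern k _ (pts_mono _ _ _ ht.1.1 ht.2.1.1 ht.2.2.1) η hη0 hη1
  choose! Kf hKf0 hKf using hpat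
  obtain ⟨K2, hK20, hK2⟩ := bad_unif δ hδ0 (M * m)
  refine ⟨(∏ t ∈ I, Kf t) * K2, Nat.mul_pos (Finset.prod_pos hKf0) hK20, fun D hD N hN hKN => ?_⟩
  obtain ⟨Bad, hBad⟩ : ∃ Bad : Finset ℕ, Bad = I.biUnion fun t =>
      {d ∈ N.divisors | ∀ p q : Fin 4, p < q →
        d * (M * (pts t.1 t.2.1 t.2.2 q - pts t.1 t.2.1 t.2.2 p)) ∉ D} := ⟨_, rfl⟩
  have hBadc : (#Bad : ℝ) ≤ δ * #N.divisors := by
    calc (#Bad : ℝ) ≤ ∑ t ∈ I, (#{d ∈ N.divisors | ∀ p q : Fin 4, p < q →
        d * (M * (pts t.1 t.2.1 t.2.2 q - pts t.1 t.2.1 t.2.2 p)) ∉ D} : ℝ) := by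
          rw [hBad]
          exact_mod_cast Finset.card_biUnion_le
      _ ≤ ∑ _t ∈ I, η * (#N.divisors : ℝ) := Finset.sum_le_sum fun t ht =>
          hKf t ht D hD N hN ((Finset.dvd_prod_of_mem Kf ht).trans ((dvd_mul_right _ _).trans hKN))
      _ = (#I * η) * #N.divisors := by
          rw [Finset.sum_const, nsmul_eq_mul]
          ring
      _ ≤ _ := by gcongr
  -- the weighted count
  have hpt : ∀ d ∈ N.divisors, ∑ t ∈ Finset.range m,
      (if d * (M * (t + 1)) ∉ D then w t else 0) ≤ B + (if d ∈ Bad then W else 0) := by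
    intro d hd
    by_cases hdB : d ∈ Bad
    · rw [if_pos hdB]
      refine le_trans ?_ (Nat.le_add_left _ _)
      rw [hW]
      refine Finset.sum_le_sum fun t _ => ?_
      split_ifs <;> omega
    · rw [if_neg hdB, add_zero]
      have h := hcert (fun t => decide (d * (M * (t + 1)) ∉ D)) (by
        intro x y z hx hy hz hxyz hcon
        simp only [decide_eq_true_eq] at hcon
        obtain ⟨c1, c2, c3, c4, c5, c6⟩ := hcon
        rw [Nat.sub_add_cancel (by omega)] at c1 c2 c3 c4 c5 c6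
        apply hdB
        rw [hBad, Finset.mem_biUnion]
        refine ⟨(x, y, z), ?_, Finset.mem_filter.2 ⟨hd, fun p q hpq => ?_⟩⟩
        · rw [hI, Finset.mem_product, Finset.mem_product, Finset.mem_Icc, Finset.mem_Icc,
            Finset.mem_Icc]
          simp only
          omega
        · exact pts_diff x y z (fun s => d * (M * s) ∉ D) c1 c2 c3 c4 c5 c6 p q hpq)
      simpa using h
  have hsum : ∑ t ∈ Finset.range m, w t * #{d ∈ N.divisors | d * (M * (t + 1)) ∉ D} ≤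
      B * #N.divisors + W * #Bad := by
    calc ∑ t ∈ Finset.range m, w t * #{d ∈ N.divisors | d * (M * (t + 1)) ∉ D} =
          ∑ t ∈ Finset.range m, ∑ d ∈ N.divisors,
            (if d * (M * (t + 1)) ∉ D then w t else 0) := by
          refine Finset.sum_congr rfl fun t _ => ?_
          rw [Finset.card_filter, Finset.mul_sum]
          refine Finset.sum_congr rfl fun d _ => ?_
          rw [mul_ite, mul_one, mul_zero]
      _ = ∑ d ∈ N.divisors, ∑ t ∈ Finset.range m,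
            (if d * (M * (t + 1)) ∉ D then w t else 0) := Finset.sum_comm
      _ ≤ ∑ d ∈ N.divisors, (B + (if d ∈ Bad then W else 0)) := Finset.sum_le_sum hpt
      _ = B * #N.divisors + ∑ d ∈ N.divisors, (if d ∈ Bad then W else 0) := by
          rw [Finset.sum_add_distrib, Finset.sum_const, smul_eq_mul, mul_comm]
      _ ≤ _ := by
          refine Nat.add_le_add_left ?_ _
          rw [← Finset.sum_filter, Finset.sum_const, smul_eq_mul, mul_comm]
          refine Nat.mul_le_mul_left _ (Finset.card_le_card fun d hd => ?_)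
          exact (Finset.mem_filter.1 hd).2
  have hsumR : ∑ t ∈ Finset.range m, (w t : ℝ) * #{d ∈ N.divisors | d * (M * (t + 1)) ∉ D} ≤
      B * #N.divisors + W * #Bad := by exact_mod_cast hsum
  have hnt : ∀ t ∈ Finset.range m, (#N.divisors : ℝ) -
      (#{d ∈ N.divisors | d ∈ D} + δ * #N.divisors) ≤
      #{d ∈ N.divisors | d * (M * (t + 1)) ∉ D} := by
    intro t ht
    rw [Finset.mem_range] at ht
    have h1 : (#{d ∈ N.divisors | d * (M * (t + 1)) ∈ D} : ℝ) ≤
        #{d ∈ N.divisors | d ∈ D} + #(bad N (M * (t + 1))) := by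
      exact_mod_cast shift_in N (M * (t + 1)) (by positivity) (fun d => d ∈ D)
    have h2 := hK2 N hN ((dvd_mul_left _ _).trans hKN) (M * (t + 1)) (by positivity)
      (Nat.mul_le_mul_left _ (by omega))
    have h3 : (#{d ∈ N.divisors | d * (M * (t + 1)) ∈ D} : ℝ) +
        #{d ∈ N.divisors | d * (M * (t + 1)) ∉ D} = #N.divisors := by
      exact_mod_cast Finset.card_filter_add_card_filter_not (s := N.divisors)
        (fun d => d * (M * (t + 1)) ∈ D)
    linarith
  generalize hc : (#{d ∈ N.divisors | d ∈ D} : ℝ) = c at hnt ⊢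
  generalize hτ : (#N.divisors : ℝ) = τ at hnt hsumR hBadc ⊢
  have h4 : (W : ℝ) * (τ - (c + δ * τ)) ≤ B * τ + W * #Bad := by
    calc (W : ℝ) * (τ - (c + δ * τ)) =
          ∑ t ∈ Finset.range m, (w t : ℝ) * (τ - (c + δ * τ)) := by
          rw [← Finset.sum_mul, hW]
          push_cast
          ring
      _ ≤ ∑ t ∈ Finset.range m, (w t : ℝ) *
            #{d ∈ N.divisors | d * (M * (t + 1)) ∉ D} :=
          Finset.sum_le_sum fun t ht => by
            have := hnt t ht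
            gcongr
      _ ≤ _ := hsumR
  have h5 : (W : ℝ) * #Bad ≤ W * (δ * τ) := by gcongr
  have hτ0 : 0 ≤ τ := hτ ▸ Nat.cast_nonneg _
  have h6 : 2 * W * δ * τ ≤ ε * τ := by gcongr
  nlinarith


/-- The four bin property is inherited by `{d | g * d ∈ D}`. -/
theorem bins_dilate {D : Set ℕ} {k : ℕ} (hD : PG.HitsBins 4 k D) (g : ℕ) (hg : 0 < g) :
    PG.HitsBins 4 k {d : ℕ | g * d ∈ D} := by
  classical
  intro H hHk hdis hadm
  have hinj : Function.Injective fun y : ℕ => g * y := fun a b hab =>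
    Nat.eq_of_mul_eq_mul_left hg hab
  obtain ⟨i, j, hij, a, ha, b, hb, hab, hDab⟩ := hD (fun i => (H i).image fun y => g * y)
    (fun i => by rw [Finset.card_image_of_injective _ hinj, hHk])
    (fun i j hij => by
      rw [Finset.disjoint_left]
      intro u hu hv
      obtain ⟨y, hy, rfl⟩ := Finset.mem_image.1 hu
      obtain ⟨z, hz, hyz⟩ := Finset.mem_image.1 hv
      rw [hinj hyz] at hz
      exact Finset.disjoint_left.1 (hdis i j hij) hy hz)
    (by
      intro p hp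
      by_cases hpg : p ∣ g
      · refine ⟨1, fun h hh hmod => ?_⟩
        obtain ⟨i, -, hi⟩ := Finset.mem_biUnion.1 hh
        obtain ⟨y, hy, rfl⟩ := Finset.mem_image.1 hi
        have h2 : 1 ≡ 0 [MOD p] := hmod.symm.trans ((Nat.modEq_zero_iff_dvd).2 (hpg.mul_right y))
        exact hp.one_lt.ne' (Nat.dvd_one.1 ((Nat.modEq_zero_iff_dvd).1 h2))
      · obtain ⟨r, hr⟩ := hadm p hp
        refine ⟨g * r, fun h hh hmod => ?_⟩
        obtain ⟨i, -, hi⟩ := Finset.mem_biUnion.1 hh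
        obtain ⟨y, hy, rfl⟩ := Finset.mem_image.1 hi
        exact hr y (Finset.mem_biUnion.2 ⟨i, Finset.mem_univ i, hy⟩)
          (Nat.ModEq.cancel_left_of_coprime ((Nat.coprime_comm.1
            ((Nat.Prime.coprime_iff_not_dvd hp).2 hpg)) |> fun h => by
              rw [Nat.Coprime] at h; rw [Nat.gcd_comm]; exact h) hmod))
  obtain ⟨y, hy, rfl⟩ := Finset.mem_image.1 ha
  obtain ⟨z, hz, rfl⟩ := Finset.mem_image.1 hb
  refine ⟨i, j, hij, y, hy, z, hz, ?_, ?_⟩
  · exact lt_of_mul_lt_mul_left hab (Nat.zero_le g)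
  · rw [Set.mem_ofPred_eq, Nat.mul_sub]
    exact hDab

/-- For every `ε` there is `K` such that for every `g` and every positive multiple `N` of `K` at
least `1/2 - ε` of all divisors `d` of `N` satisfy `g d ∈ D`. -/
theorem dilates_half (k : ℕ) (ε : ℝ) (hε : 0 < ε) : ∃ K : ℕ, 0 < K ∧ ∀ D : Set ℕ,
    PG.HitsBins 4 k D → ∀ g : ℕ, 0 < g → ∀ N : ℕ, 0 < N → K ∣ N →
      (1 / 2 - ε) * (N.divisors.card : ℝ) ≤ (({d : ℕ | d ∣ N ∧ g * d ∈ D}).ncard : ℝ) := by
  classical
  obtain ⟨m, w, hW, hV⟩ := Pool.Agent.HOM.weights (ε / 4) (by positivity)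
  have hWR : (0 : ℝ) < ((∑ t ∈ Finset.range m, w t : ℕ) : ℝ) := by exact_mod_cast hW
  obtain ⟨K, hK, h⟩ := main_abs m
    ⌊(1 / 2 + ε / 4) * ((∑ t ∈ Finset.range m, w t : ℕ) : ℝ)⌋₊ w
    (fun V hC => Nat.le_floor (hV V hC)) k
    (ε * ((∑ t ∈ Finset.range m, w t : ℕ) : ℝ) / 4) (by positivity)
  refine ⟨K, hK, fun D hD g hg N hN hKN => ?_⟩
  have h1 := h _ (bins_dilate hD g hg) N hN hKN
  have h2 : (({d : ℕ | d ∣ N ∧ g * d ∈ D}).ncard : ℝ) =
      ((N.divisors.filter fun d => d ∈ {d : ℕ | g * d ∈ D}).card : ℝ) := by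
    rw [Nat.cast_inj, ← Set.ncard_coe_finset]
    congr 1
    ext d
    simp only [Finset.coe_filter, Nat.mem_divisors, Set.mem_ofPred_eq]
    have := hN.ne'
    tauto
  rw [h2]
  set W : ℝ := ((∑ t ∈ Finset.range m, w t : ℕ) : ℝ) with hWdef
  have hB : ((⌊(1 / 2 + ε / 4) * W⌋₊ : ℕ) : ℝ) ≤ (1 / 2 + ε / 4) * W :=
    Nat.floor_le (by positivity)
  have hc : (0 : ℝ) ≤ (N.divisors.card : ℝ) := Nat.cast_nonneg _
  have h3 : W * ((1 / 2 - ε / 2) * (N.divisors.card : ℝ)) ≤
      W * ((N.divisors.filter fun d => d ∈ {d : ℕ | g * d ∈ D}).card : ℝ) := by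
    refine le_trans ?_ h1
    have h4 : W * (1 / 2 - ε / 2) ≤ W - ((⌊(1 / 2 + ε / 4) * W⌋₊ : ℕ) : ℝ) - ε * W / 4 := by
      linarith
    calc W * ((1 / 2 - ε / 2) * (N.divisors.card : ℝ))
        = (W * (1 / 2 - ε / 2)) * (N.divisors.card : ℝ) := by ring
      _ ≤ _ := mul_le_mul_of_nonneg_right h4 hc
  have h5 := le_of_mul_le_mul_left h3 hWR
  have h6 : 0 ≤ ε * (N.divisors.card : ℝ) := by positivity
  linarith

end Pool.Agent.HOMM
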